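import Mathlib

set_option autoImplicit false

/-!
# Trace, rank and Frobenius norm of a real symmetric matrix
-/

namespace Pool.Agent.H68.Fr

open Matrix

/-- The trace of the square of a symmetric matrix is the sum of the squares of its eigenvalues. -/
lemma trace_mul_self {n : Type*} [Fintype n] [DecidableEq n] {A : Matrix n n ℝ}
    (hA : A.IsHermitian) : (A * A).trace = ∑ i, hA.eigenvalues i ^ 2 := by
  have h1 : A * A = Unitary.conjStarAlgAut ℝ _ hA.eigenvectorUnitary
      (diagonal (RCLike.ofReal ∘ hA.eigenvalues) * diagonal (RCLike.ofReal ∘ hA.eigenvalues)) := by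
    rw [map_mul, ← hA.spectral_theorem]
  rw [h1, Unitary.conjStarAlgAut_apply, Matrix.trace_mul_comm, ← mul_assoc]
  simp [diagonal_mul_diagonal, trace_diagonal, pow_two]

/-- `(tr A)² ≤ rank A · ∑ A i j ^ 2` for symmetric `A`. -/
theorem trace_sq_le {n : Type*} [Fintype n] {A : Matrix n n ℝ} (hA : A.IsSymm) :
    A.trace ^ 2 ≤ A.rank * ∑ i, ∑ j, A i j ^ 2 := by
  classical
  have hH : A.IsHermitian := by
    rw [Matrix.IsHermitian, Matrix.conjTranspose_eq_transpose_of_trivial]
    exact hA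
  have h1 : A.trace = ∑ i, hH.eigenvalues i := by
    simpa using hH.trace_eq_sum_eigenvalues
  have h2 : ∑ i, ∑ j, A i j ^ 2 = ∑ i, hH.eigenvalues i ^ 2 := by
    rw [← trace_mul_self hH, Matrix.trace]
    refine Finset.sum_congr rfl fun i _ => ?_
    rw [Matrix.diag_apply, Matrix.mul_apply]
    refine Finset.sum_congr rfl fun j _ => ?_
    rw [pow_two, hA.apply i j]
  have h3 : A.rank = (Finset.univ.filter fun i => hH.eigenvalues i ≠ 0).card := by
    rw [hH.rank_eq_card_non_zero_eigs, Fintype.card_subtype]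
  rw [h1, h2, h3]
  calc (∑ i, hH.eigenvalues i) ^ 2
      = (∑ i ∈ Finset.univ.filter fun i => hH.eigenvalues i ≠ 0, hH.eigenvalues i) ^ 2 := by
        rw [Finset.sum_filter_ne_zero]
    _ ≤ (Finset.univ.filter fun i => hH.eigenvalues i ≠ 0).card *
        ∑ i ∈ Finset.univ.filter fun i => hH.eigenvalues i ≠ 0, hH.eigenvalues i ^ 2 :=
        sq_sum_le_card_mul_sum_sq
    _ ≤ _ := by
        refine mul_le_mul_of_nonneg_left ?_ (Nat.cast_nonneg _)
        exact Finset.sum_le_sum_of_subset_of_nonneg (Finset.filter_subset _ _)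
          fun i _ _ => sq_nonneg _

/-- The matrix `c - ∑ (w i m * b j m + b i m * w j m)` has rank at most `2 r + 1`. -/
lemma rank_le {n : Type*} [Fintype n] {r : ℕ} (w b : n → Fin r → ℝ) (c : ℝ) :
    (Matrix.of fun i j => c - ∑ m, (w i m * b j m + b i m * w j m)).rank ≤ 2 * r + 1 := by
  classical
  have h1 : (Matrix.of fun i j => c - ∑ m, (w i m * b j m + b i m * w j m)) =
      (Matrix.of fun (i : n) (k : (Fin r ⊕ Fin r) ⊕ Unit) =>
        Sum.elim (Sum.elim (fun m => w i m) (fun m => b i m)) (fun _ => c) k) *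
      (Matrix.of fun (k : (Fin r ⊕ Fin r) ⊕ Unit) (j : n) =>
        Sum.elim (Sum.elim (fun m => -b j m) (fun m => -w j m)) (fun _ => 1) k) := by
    ext i j
    rw [Matrix.mul_apply]
    simp only [Matrix.of_apply, Fintype.sum_sum_type, Sum.elim_inl, Sum.elim_inr,
      Finset.univ_unique, Finset.sum_const, Finset.card_singleton, one_smul, mul_one, mul_neg,
      Finset.sum_neg_distrib, Finset.sum_add_distrib]
    ring
  rw [h1]
  refine (Matrix.rank_mul_le_left _ _).trans ((Matrix.rank_le_card_width _).trans ?_)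
  simp only [Fintype.card_sum, Fintype.card_fin, Fintype.card_unit]
  omega

/-- If the entries `M i j = ∑ (w i m * b j m + b i m * w j m)` lie in `[0, c]` and vanish on the
diagonal, then `c n² ≤ (2 r + 1) ∑ (c - M i j)`. -/
theorem diag_bound {n : Type*} [Fintype n] {r : ℕ} (w b : n → Fin r → ℝ) {c : ℝ} (hc : 0 < c)
    (h0 : ∀ i j, ∑ m, (w i m * b j m + b i m * w j m) ≤ c)
    (h1 : ∀ i j, 0 ≤ ∑ m, (w i m * b j m + b i m * w j m))
    (h2 : ∀ i, ∑ m, (w i m * b i m + b i m * w i m) = 0) :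
    c * (Fintype.card n : ℝ) ^ 2 ≤
      (2 * r + 1) * ∑ i, ∑ j, (c - ∑ m, (w i m * b j m + b i m * w j m)) := by
  classical
  set A : Matrix n n ℝ := Matrix.of fun i j => c - ∑ m, (w i m * b j m + b i m * w j m) with hA
  have hAij : ∀ i j, A i j = c - ∑ m, (w i m * b j m + b i m * w j m) := fun i j => rfl
  have hsymm : A.IsSymm := by
    ext i j
    rw [Matrix.transpose_apply, hAij, hAij]
    congr 1
    exact Finset.sum_congr rfl fun m _ => by ring
  have htr : A.trace = c * Fintype.card n := by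
    rw [Matrix.trace]
    simp only [Matrix.diag_apply, hAij, h2, sub_zero, Finset.sum_const, Finset.card_univ,
      nsmul_eq_mul]
    ring
  have hrank : (A.rank : ℝ) ≤ 2 * r + 1 := by
    exact_mod_cast rank_le w b c
  have hsq : ∑ i, ∑ j, A i j ^ 2 ≤ c * ∑ i, ∑ j, A i j := by
    rw [Finset.mul_sum]
    refine Finset.sum_le_sum fun i _ => ?_
    rw [Finset.mul_sum]
    refine Finset.sum_le_sum fun j _ => ?_
    have := h0 i j
    have := h1 i j
    rw [hAij]
    nlinarith
  have hS : 0 ≤ ∑ i, ∑ j, A i j ^ 2 :=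
    Finset.sum_nonneg fun i _ => Finset.sum_nonneg fun j _ => sq_nonneg _
  have key : (c * Fintype.card n) ^ 2 ≤ (2 * r + 1) * (c * ∑ i, ∑ j, A i j) := by
    rw [← htr]
    refine (trace_sq_le hsymm).trans ?_
    calc (A.rank : ℝ) * ∑ i, ∑ j, A i j ^ 2 ≤ (2 * r + 1) * ∑ i, ∑ j, A i j ^ 2 :=
          mul_le_mul_of_nonneg_right hrank hS
      _ ≤ _ := mul_le_mul_of_nonneg_left hsq (by positivity)
  have : c * (c * (Fintype.card n : ℝ) ^ 2) ≤ c * ((2 * r + 1) * ∑ i, ∑ j, A i j) := by
    calc c * (c * (Fintype.card n : ℝ) ^ 2) = (c * Fintype.card n) ^ 2 := by ring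
      _ ≤ _ := key
      _ = _ := by ring
  exact le_of_mul_le_mul_left this hc

end Pool.Agent.H68.Fr
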