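import Mathlib
import Pool.Agent.H68.Fr.TraceRank

set_option autoImplicit false

/-!
# Trace and Frobenius norm: only the positive eigenvalues count
-/

namespace Pool.Agent.H68.Fr

open Matrix

/-- If the quadratic form of the symmetric matrix `A` is nonpositive on the kernel of a linear map
to a space of dimension `k` and `0 ≤ tr A`, then `(tr A)² ≤ k · ∑ A i j ^ 2`. -/
theorem trace_sq_le_pos {n ι : Type*} [Fintype n] [Fintype ι] {A : Matrix n n ℝ} (hA : A.IsSymm)
    (htr : 0 ≤ A.trace) (φ : (n → ℝ) →ₗ[ℝ] (ι → ℝ))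
    (hφ : ∀ x : n → ℝ, φ x = 0 → x ⬝ᵥ (A *ᵥ x) ≤ 0) :
    A.trace ^ 2 ≤ Fintype.card ι * ∑ i, ∑ j, A i j ^ 2 := by
  classical
  have hH : A.IsHermitian := by
    rw [Matrix.IsHermitian, Matrix.conjTranspose_eq_transpose_of_trivial]
    exact hA
  set P : Finset n := Finset.univ.filter fun i => 0 < hH.eigenvalues i with hP
  set e : n → n → ℝ := fun i => ⇑(hH.eigenvectorBasis i) with he
  have hort : ∀ i j, e i ⬝ᵥ e j = if i = j then 1 else 0 := by
    intro i j
    have h1 := (orthonormal_iff_ite.mp hH.eigenvectorBasis.orthonormal) j i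
    rw [EuclideanSpace.inner_eq_star_dotProduct] at h1
    simp only [star_trivial] at h1
    rw [he]
    simp only
    rw [h1]
    simp only [eq_comm]
  have heig : ∀ i, A *ᵥ e i = hH.eigenvalues i • e i := fun i => hH.mulVec_eigenvectorBasis i
  have hcard : P.card ≤ Fintype.card ι := by
    by_contra hlt
    push Not at hlt
    let g : (P → ℝ) →ₗ[ℝ] (n → ℝ) :=
      { toFun := fun a => ∑ i : P, a i • e i
        map_add' := fun a b => by
          simp only [Pi.add_apply, add_smul, Finset.sum_add_distrib]
        map_smul' := fun t a => by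
          simp only [Pi.smul_apply, smul_eq_mul, mul_smul, Finset.smul_sum, RingHom.id_apply] }
    have hker : LinearMap.ker (φ ∘ₗ g) ≠ ⊥ := by
      apply LinearMap.ker_ne_bot_of_finrank_lt
      rw [Module.finrank_fintype_fun_eq_card, Module.finrank_fintype_fun_eq_card,
        Fintype.card_coe]
      exact hlt
    obtain ⟨a, ha, ha0⟩ := Submodule.exists_mem_ne_zero_of_ne_bot hker
    have h1 := hφ (g a) ha
    have h2 : g a ⬝ᵥ (A *ᵥ g a) = ∑ i : P, hH.eigenvalues i * a i ^ 2 := by
      have h3 : A *ᵥ g a = ∑ i : P, (a i * hH.eigenvalues i) • e i := by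
        change A *ᵥ (∑ i : P, a i • e i) = _
        rw [Matrix.mulVec_sum]
        refine Finset.sum_congr rfl fun i _ => ?_
        rw [Matrix.mulVec_smul, heig, smul_smul]
      rw [h3]
      change (∑ i : P, a i • e i) ⬝ᵥ _ = _
      rw [sum_dotProduct]
      refine Finset.sum_congr rfl fun i _ => ?_
      rw [dotProduct_sum, Finset.sum_eq_single i]
      · rw [smul_dotProduct, dotProduct_smul, hort]
        simp only [if_true, smul_eq_mul]
        ring
      · intro j _ hji
        rw [smul_dotProduct, dotProduct_smul, hort, if_neg fun h => hji (Subtype.ext h.symm)]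
        simp
      · intro h
        exact absurd (Finset.mem_univ i) h
    have h4 : 0 < ∑ i : P, hH.eigenvalues i * a i ^ 2 := by
      obtain ⟨i, hi⟩ := Function.ne_iff.mp ha0
      refine Finset.sum_pos' (fun j _ => ?_) ⟨i, Finset.mem_univ i, ?_⟩
      · exact mul_nonneg (Finset.mem_filter.mp j.2).2.le (sq_nonneg _)
      · exact mul_pos (Finset.mem_filter.mp i.2).2 (by
          have : a i ≠ 0 := hi
          positivity)
    rw [h2] at h1
    exact absurd h1 (not_le_of_gt h4)
  have h1 : A.trace = ∑ i, hH.eigenvalues i := by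
    simpa using hH.trace_eq_sum_eigenvalues
  have h2 : ∑ i, ∑ j, A i j ^ 2 = ∑ i, hH.eigenvalues i ^ 2 := by
    rw [← trace_mul_self hH, Matrix.trace]
    refine Finset.sum_congr rfl fun i _ => ?_
    rw [Matrix.diag_apply, Matrix.mul_apply]
    refine Finset.sum_congr rfl fun j _ => ?_
    rw [pow_two, hA.apply i j]
  have h3 : A.trace ≤ ∑ i ∈ P, hH.eigenvalues i := by
    rw [h1, hP, Finset.sum_filter]
    refine Finset.sum_le_sum fun i _ => ?_
    split_ifs with h
    · exact le_rfl
    · exact not_lt.mp h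
  calc A.trace ^ 2 ≤ (∑ i ∈ P, hH.eigenvalues i) ^ 2 := pow_le_pow_left₀ htr h3 2
    _ ≤ P.card * ∑ i ∈ P, hH.eigenvalues i ^ 2 := sq_sum_le_card_mul_sum_sq
    _ ≤ Fintype.card ι * ∑ i, hH.eigenvalues i ^ 2 := by
        refine mul_le_mul (by exact_mod_cast hcard) ?_
          (Finset.sum_nonneg fun i _ => sq_nonneg _) (Nat.cast_nonneg _)
        exact Finset.sum_le_sum_of_subset_of_nonneg (Finset.filter_subset _ _)
          fun i _ _ => sq_nonneg _
    _ = _ := by rw [h2]

/-- If the entries `M i j = ∑ (w i m * b j m + b i m * w j m)` lie in `[0, c]` and vanish on the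
diagonal, then `c n² ≤ (r + 1) ∑ (c - M i j)`. -/
theorem diag_bound' {n : Type*} [Fintype n] {r : ℕ} (w b : n → Fin r → ℝ) {c : ℝ} (hc : 0 < c)
    (h0 : ∀ i j, ∑ m, (w i m * b j m + b i m * w j m) ≤ c)
    (h1 : ∀ i j, 0 ≤ ∑ m, (w i m * b j m + b i m * w j m))
    (h2 : ∀ i, ∑ m, (w i m * b i m + b i m * w i m) = 0) :
    c * (Fintype.card n : ℝ) ^ 2 ≤
      (r + 1) * ∑ i, ∑ j, (c - ∑ m, (w i m * b j m + b i m * w j m)) := by
  classical
  set A : Matrix n n ℝ := Matrix.of fun i j => c - ∑ m, (w i m * b j m + b i m * w j m) with hA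
  have hAij : ∀ i j, A i j = c - ∑ m, (w i m * b j m + b i m * w j m) := fun i j => rfl
  have hsymm : A.IsSymm := by
    ext i j
    rw [Matrix.transpose_apply, hAij, hAij]
    congr 1
    exact Finset.sum_congr rfl fun m _ => by ring
  have htr : A.trace = c * Fintype.card n := by
    rw [Matrix.trace]
    simp only [Matrix.diag_apply, hAij, h2, sub_zero, Finset.sum_const, Finset.card_univ,
      nsmul_eq_mul]
    ring
  -- the linear functionals `∑ x i` and `∑ (w i m - b i m) x i`
  let φ : (n → ℝ) →ₗ[ℝ] (Option (Fin r) → ℝ) :=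
    { toFun := fun x k => k.elim (∑ i, x i) fun m => ∑ i, (w i m - b i m) * x i
      map_add' := fun x y => by
        funext k
        cases k with
        | none => simp [Finset.sum_add_distrib]
        | some m => simp [mul_add, Finset.sum_add_distrib]
      map_smul' := fun t x => by
        funext k
        cases k with
        | none => simp [Finset.mul_sum]
        | some m =>
          simp only [Option.elim_some, Pi.smul_apply, smul_eq_mul, RingHom.id_apply,
            Finset.mul_sum]
          exact Finset.sum_congr rfl fun i _ => by ring }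
  have hφ : ∀ x : n → ℝ, φ x = 0 → x ⬝ᵥ (A *ᵥ x) ≤ 0 := by
    intro x hx
    have hx0 : ∑ i, x i = 0 := congrFun hx none
    have hxm : ∀ m, ∑ i, w i m * x i = ∑ i, b i m * x i := by
      intro m
      have h3 : ∑ i, (w i m - b i m) * x i = 0 := congrFun hx (some m)
      simp only [sub_mul, Finset.sum_sub_distrib] at h3
      linarith
    have h4 : x ⬝ᵥ (A *ᵥ x) =
        c * (∑ i, x i) ^ 2 - 2 * ∑ m, (∑ i, w i m * x i) * ∑ i, b i m * x i := by
      have h5 : ∀ i, (A *ᵥ x) i = c * (∑ j, x j) -
          ∑ m, (w i m * (∑ j, b j m * x j) + b i m * ∑ j, w j m * x j) := by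
        intro i
        rw [Matrix.mulVec, dotProduct]
        simp only [hAij, sub_mul, Finset.sum_sub_distrib, Finset.mul_sum, Finset.sum_mul,
          add_mul, Finset.sum_add_distrib]
        congr 1
        congr 1
        · rw [Finset.sum_comm]
          exact Finset.sum_congr rfl fun m _ => Finset.sum_congr rfl fun j _ => by ring
        · rw [Finset.sum_comm]
          exact Finset.sum_congr rfl fun m _ => Finset.sum_congr rfl fun j _ => by ring
      rw [dotProduct]
      simp only [h5, mul_sub, Finset.sum_sub_distrib]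
      congr 1
      · rw [pow_two, ← Finset.sum_mul]
        ring
      · have h6 : ∀ i, x i * ∑ m, (w i m * (∑ j, b j m * x j) + b i m * ∑ j, w j m * x j) =
            ∑ m, ((w i m * x i) * (∑ j, b j m * x j) + (b i m * x i) * ∑ j, w j m * x j) := by
          intro i
          rw [Finset.mul_sum]
          exact Finset.sum_congr rfl fun m _ => by ring
        simp only [h6]
        rw [Finset.sum_comm, Finset.mul_sum]
        refine Finset.sum_congr rfl fun m _ => ?_
        rw [Finset.sum_add_distrib, ← Finset.sum_mul, ← Finset.sum_mul]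
        ring
    rw [h4, hx0]
    have h7 : 0 ≤ ∑ m, (∑ i, w i m * x i) * ∑ i, b i m * x i :=
      Finset.sum_nonneg fun m _ => by
        rw [hxm m]
        exact mul_self_nonneg _
    linarith [h7]
  have hsq : ∑ i, ∑ j, A i j ^ 2 ≤ c * ∑ i, ∑ j, A i j := by
    rw [Finset.mul_sum]
    refine Finset.sum_le_sum fun i _ => ?_
    rw [Finset.mul_sum]
    refine Finset.sum_le_sum fun j _ => ?_
    have := h0 i j
    have := h1 i j
    rw [hAij]
    nlinarith
  have key : (c * Fintype.card n) ^ 2 ≤ (r + 1) * (c * ∑ i, ∑ j, A i j) := by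
    rw [← htr]
    refine (trace_sq_le_pos hsymm (by rw [htr]; positivity) φ hφ).trans ?_
    rw [Fintype.card_option, Fintype.card_fin]
    push_cast
    exact mul_le_mul_of_nonneg_left hsq (by positivity)
  have : c * (c * (Fintype.card n : ℝ) ^ 2) ≤ c * ((r + 1) * ∑ i, ∑ j, A i j) := by
    calc c * (c * (Fintype.card n : ℝ) ^ 2) = (c * Fintype.card n) ^ 2 := by ring
      _ ≤ _ := key
      _ = _ := by ring
  exact le_of_mul_le_mul_left this hc

end Pool.Agent.H68.Fr
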